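import Pool.Agent.Lib.MP_084b88_gt.SK.S1.F
import Pool.Agent.Lib.MP_084b88_gt.SK.R1.F
import Pool.Agent.Lib.MP_084b88_gt.SK.T12.F
import Pool.Agent.Lib.MP_084b88_gt.SK.TIS
import Pool.Agent.Lib.MP_084b88_gt.SK.AXG
import Pool.Agent.Lib.MP_084b88_gt.QV.GLU

/-!
# MP_084b88_gt, project QD: the certificates of all generators
-/

set_option autoImplicit false

open MeasureTheory Set Real

namespace Pool.Agent.Lib.MP_084b88_gt.QV

open Pool.Agent.Lib.MP_084b88_gt.CW Pool.Agent.Lib.MP_084b88_gt.SY Pool.Agent.Lib.MP_084b88_gt.LG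
open Pool.Agent.Lib.MP_084b88_gt.AY Pool.Agent.Lib.MP_084b88_gt.SK

theorem gvS : GV8 ⟨1 / 2, -1, 1, 0, 0, 1 / 20, 1 / 500, 230711 / 212097000, 0⟩ :=
  S1.gv8 aKRJ allGVK allNQA fun rc rs h1 h2 h3 h4 => aTLM rc rs h1 h2 h3 h4

theorem gvR : GV8 ⟨4 / 5, -1, 0, 1, 0, 0, 0, 2501967 / 2800000000, 3 / 100⟩ :=
  R1.gv8 aKRJ allGVK allNQA fun rc rs h1 h2 h3 h4 => aTLM rc rs h1 h2 h3 h4

theorem gvT12 : GV8 ⟨1 / 4, 1 / 2, 1, 1, 174598001 / 4200000000, 3 / 40, 3 / 1000, 0, 0⟩ :=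
  T12.gv8 aKRJ allGVK allNQA fun rc rs h1 h2 h3 h4 => aTLM rc rs h1 h2 h3 h4

/-- All certificates. -/
theorem cts : Cts where
  t11 := gvT11'
  t12 := ⟨_, _, gvT12, by norm_num, Or.inl (by norm_num)⟩
  t22 := gvT22'
  r := ⟨_, gvR, by norm_num⟩
  s := by
    have e : (1 : ℝ) / 500 = 2 / 1000 := by norm_num
    exact ⟨_, _, e ▸ gvS, by norm_num, Or.inl (by norm_num)⟩

end Pool.Agent.Lib.MP_084b88_gt.QV
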