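import Pool.Agent.Lib.MP_084b88_gt.QD.DT

/-!
# MP_084b88_gt, project QV, data: the checks of the tables
-/

set_option autoImplicit false
set_option maxRecDepth 100000

namespace Pool.Agent.Lib.MP_084b88_gt.QV

theorem sg_ok : sgs OMt LAt sgT = true := by decide +kernel

theorem kn_ok : kck knT sgT = true := by decide +kernel

theorem tb_ok : tck knT rows = true := by decide +kernel

theorem wt_ok : wts = wtOf gsT := rfl

end Pool.Agent.Lib.MP_084b88_gt.QV
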