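import Pool.Agent.Lib.MP_084b88_gt.QV.FDA
import Pool.Agent.Lib.MP_084b88_gt.QV.Pcs
import Pool.Agent.Lib.MP_084b88_gt.QD.TK
import Pool.Agent.Lib.MP_084b88_gt.QD.RG31
import Pool.Agent.Lib.MP_084b88_gt.QD.C01
import Pool.Agent.Lib.MP_084b88_gt.QD.C02
import Pool.Agent.Lib.MP_084b88_gt.QD.C03
import Pool.Agent.Lib.MP_084b88_gt.QD.C04
import Pool.Agent.Lib.MP_084b88_gt.QD.C05
import Pool.Agent.Lib.MP_084b88_gt.QD.C06
import Pool.Agent.Lib.MP_084b88_gt.QD.C07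
import Pool.Agent.Lib.MP_084b88_gt.QD.C08
import Pool.Agent.Lib.MP_084b88_gt.QD.C09
import Pool.Agent.Lib.MP_084b88_gt.QD.C10
import Pool.Agent.Lib.MP_084b88_gt.QD.C11
import Pool.Agent.Lib.MP_084b88_gt.QD.C12
import Pool.Agent.Lib.MP_084b88_gt.QD.C13
import Pool.Agent.Lib.MP_084b88_gt.QD.C14
import Pool.Agent.Lib.MP_084b88_gt.QD.C15
import Pool.Agent.Lib.MP_084b88_gt.QD.C16
import Pool.Agent.Lib.MP_084b88_gt.QD.C17
import Pool.Agent.Lib.MP_084b88_gt.QD.C18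
import Pool.Agent.Lib.MP_084b88_gt.QD.C19
import Pool.Agent.Lib.MP_084b88_gt.QD.C20
import Pool.Agent.Lib.MP_084b88_gt.QD.C21
import Pool.Agent.Lib.MP_084b88_gt.QD.C22
import Pool.Agent.Lib.MP_084b88_gt.QD.C23
import Pool.Agent.Lib.MP_084b88_gt.QD.C24
import Pool.Agent.Lib.MP_084b88_gt.QD.C25
import Pool.Agent.Lib.MP_084b88_gt.QD.C26
import Pool.Agent.Lib.MP_084b88_gt.QD.C27
import Pool.Agent.Lib.MP_084b88_gt.QD.C28
import Pool.Agent.Lib.MP_084b88_gt.QD.C29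

/-!
# MP_084b88_gt, project QV: the cover and the statement for all convex bodies from the certificates `Cts`
-/

set_option autoImplicit false
set_option maxRecDepth 100000

open MeasureTheory Set Real
open scoped Pointwise

namespace Pool.Agent.Lib.MP_084b88_gt.QV

open Pool.Agent.Lib.MP_084b88_gt.CW Pool.Agent.Lib.MP_084b88_gt.SY Pool.Agent.Lib.MP_084b88_gt.LG
open Pool.Agent.Lib.MP_084b88_gt.AY

/-- The rectangles. -/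
def rects : List Rc := rcC01 ++ (rcC02 ++ (rcC03 ++ (rcC04 ++ (rcC05 ++ (rcC06 ++ (rcC07 ++ (rcC08 ++ (rcC09 ++ (rcC10 ++ (rcC11 ++ (rcC12 ++ (rcC13 ++ (rcC14 ++ (rcC15 ++ (rcC16 ++ (rcC17 ++ (rcC18 ++ (rcC19 ++ (rcC20 ++ (rcC21 ++ (rcC22 ++ (rcC23 ++ (rcC24 ++ (rcC25 ++ (rcC26 ++ (rcC27 ++ (rcC28 ++ (rcC29))))))))))))))))))))))))))))

theorem rects_ok : AllG pcs rows wts 398 6 rects :=
  AllG.append rkC01 <|
  AllG.append rkC02 <|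
  AllG.append rkC03 <|
  AllG.append rkC04 <|
  AllG.append rkC05 <|
  AllG.append rkC06 <|
  AllG.append rkC07 <|
  AllG.append rkC08 <|
  AllG.append rkC09 <|
  AllG.append rkC10 <|
  AllG.append rkC11 <|
  AllG.append rkC12 <|
  AllG.append rkC13 <|
  AllG.append rkC14 <|
  AllG.append rkC15 <|
  AllG.append rkC16 <|
  AllG.append rkC17 <|
  AllG.append rkC18 <|
  AllG.append rkC19 <|
  AllG.append rkC20 <|
  AllG.append rkC21 <|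
  AllG.append rkC22 <|
  AllG.append rkC23 <|
  AllG.append rkC24 <|
  AllG.append rkC25 <|
  AllG.append rkC26 <|
  AllG.append rkC27 <|
  AllG.append rkC28 <|
  rkC29

/-- The tree. -/
def tree : Tr :=
  (.b 4096 (.a 212 (.a 151 (.b 1448 (.b 686 (.b 340 (.a 128 (.b 251 (.b 128 (.lf 621) (.a 91 (.lf 617) (.b 179 (.lf 616) (.a 108 (.lf 612) (.lf 613))))) (.a 91 (.lf 610) (.a 108 (.lf 620) (.lf 619)))) (.b 212 (.b 179 (.b 128 .out (.lf 477)) (.lf 485)) (.b 251 (.lf 465) (.lf 484)))) (.a 128 (.a 108 (.a 91 (.b 460 (.lf 611) (.lf 598)) (.b 562 (.b 460 (.lf 615) (.lf 618)) (.lf 600))) (.b 562 (.b 460 (.lf 614) (.lf 608)) (.lf 599))) (.b 562 (.b 395 (.lf 487) (.b 460 (.lf 486) (.lf 491))) (.b 621 (.lf 489) (.lf 488))))) (.b 1024 (.a 128 (.a 108 (.a 91 (.lf 589) (.b 838 (.lf 586) (.lf 582))) (.b 838 (.lf 584) (.lf 574))) (.b 838 (.b 758 (.lf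 460) (.lf 458)) (.b 926 (.lf 462) (.lf 457)))) (.a 128 (.a 108 (.a 91 (.lf 597) (.b 1218 (.lf 596) (.lf 593))) (.b 1218 (.lf 590) (.lf 591))) (.b 1218 (.b 1117 (.lf 374) (.lf 372)) (.b 1328 (.lf 371) (.lf 370)))))) (.a 128 (.a 108 (.a 91 (.b 2896 (.b 2048 (.lf 592) (.a 76 (.lf 605) (.lf 601))) (.a 76 (.lf 607) (.b 3444 (.lf 606) (.lf 604)))) (.b 2435 (.b 2048 (.b 1722 (.lf 588) (.lf 579)) (.lf 609)) (.b 2896 (.lf 595) (.b 3444 (.lf 583) (.lf 581))))) (.b 2233 (.b 1878 (.b 1722 (.lf 585) (.lf 578)) (.b 2048 (.lf 577) (.lf 603))) (.b 2896 (.b 2435 (.lf 602) (.lf 594)) (.b 3444 (.lf 587) (.lf 580))))) (.b 2896 (.b 2435 (.b 2048 (.b 1722 (.lf 356) (.lf 353)) (.b 2233 (.lf 411) (.lf 409))) (.b 2656 (.lf 424) (.a 139 (.lf 454) (.lf 425)))) (.a 139 (.b 3444 (.b 3158 (.lf 361) (.lf 362)) (.b 3756 (.lf 348) (.lf 350))) (.b 3444 (.b 3158 (.lf 363)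 (.lf 358)) (.b 3756 (.lf 349) (.lf 347))))))) (.b 2048 (.b 838 (.b 340 (.a 179 (.b 212 (.b 179 (.b 151 .out (.lf 464)) (.lf 480)) (.b 251 (.lf 463) (.lf 481))) (.b 212 (.a 195 (.b 179 .out (.lf 438)) (.b 195 .out (.lf 439))) (.b 251 (.a 195 (.lf 434) (.lf 431)) (.b 292 (.lf 475) (.lf 467))))) (.b 562 (.a 179 (.b 460 (.lf 482) (.lf 490)) (.b 395 (.lf 461) (.b 460 (.lf 455) (.lf 469)))) (.a 179 (.b 686 (.lf 483) (.lf 459)) (.b 758 (.b 686 (.lf 476) (.lf 444)) (.a 195 (.lf 447) (.lf 446)))))) (.b 1579 (.a 179 (.b 1218 (.b 1024 (.lf 456) (.lf 365)) (.b 1448 (.lf 369) (.lf 360))) (.b 1117 (.b 1024 (.b 926 (.lf 440) (.lf 436)) (.lf 419)) (.b 1448 (.b 1218 (.lf 418) (.lf 373)) (.lf 332)))) (.a 179 (.b 1878 (.b 1722 (.lf 359) (.lf 342)) (.a 164 (.lf 339) (.lf 334))) (.b 1878 (.b 1722 (.lf 321) (.a 195 (.lf 319) (.lf 318))) (.a 195 (.lf 317) (.lf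 316)))))) (.a 179 (.b 2896 (.a 164 (.b 2435 (.b 2233 (.lf 420) (.lf 415)) (.b 2656 (.lf 416) (.lf 417))) (.b 2656 (.b 2233 (.lf 421) (.b 2435 (.lf 414) (.lf 410))) (.a 171 (.lf 413) (.lf 412)))) (.b 3444 (.b 3158 (.a 171 (.a 164 (.lf 375) (.lf 368)) (.lf 367)) (.a 171 (.a 164 (.lf 354) (.lf 357)) (.lf 355))) (.b 3756 (.a 171 (.a 164 (.lf 345) (.lf 351)) (.lf 352)) (.a 171 (.a 164 (.lf 336) (.lf 337)) (.lf 335))))) (.b 2896 (.a 195 (.b 2543 (.b 2233 (.lf 391) (.b 2435 (.lf 397) (.lf 404))) (.b 2656 (.lf 403) (.b 2773 (.lf 402) (.lf 401)))) (.b 2332 (.b 2233 (.lf 393) (.a 203 (.lf 396) (.lf 394))) (.b 2656 (.b 2435 (.lf 392) (.lf 400)) (.lf 399)))) (.b 3444 (.b 3158 (.a 195 (.b 3024 (.lf 329) (.lf 328)) (.lf 324)) (.a 195 (.b 3298 (.lf 327) (.lf 325)) (.lf 323))) (.a 195 (.b 3756 (.b 3597 (.lf 320) (.lf 312)) (.lf 308)) (.b 3756 (.lf 309)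 (.lf 306)))))))) (.a 292 (.b 838 (.b 686 (.b 508 (.b 395 (.b 292 (.b 251 (.a 231 (.b 212 .out (.lf 428)) (.a 251 (.b 212 .out (.lf 426)) .out)) (.a 251 (.lf 466) .out)) (.a 231 (.b 340 (.lf 473) (.lf 435)) (.b 340 (.a 251 (.lf 468) .out) (.a 251 (.lf 432) .out)))) (.a 231 (.b 460 (.lf 429) (.lf 474)) (.a 251 (.b 460 (.lf 430) (.lf 472)) (.a 271 (.b 460 .out (.lf 258)) (.b 460 .out (.lf 257)))))) (.a 251 (.b 621 (.b 562 (.lf 470) (.lf 471)) (.a 231 (.lf 478) (.lf 479))) (.b 621 (.b 562 (.lf 253) (.lf 252)) (.a 271 (.b 653 (.lf 265) (.lf 261)) (.b 653 (.lf 256) (.lf 255)))))) (.a 251 (.a 231 (.b 797 (.b 758 (.lf 445) (.lf 449)) (.lf 448)) (.b 777 (.b 758 (.b 721 (.lf 443) (.lf 441)) (.a 241 (.lf 453) (.lf 451))) (.b 797 (.a 241 (.lf 452) (.lf 450)) (.lf 442)))) (.a 271 (.b 758 (.b 721 (.lf 195) (.lf 194)) (.b 797 (.lf 187) (.lf 183))) (.b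 758 (.b 721 (.lf 193) (.lf 192)) (.b 797 (.lf 184) (.lf 182)))))) (.b 2048 (.a 251 (.b 1218 (.b 1024 (.b 926 (.a 231 (.lf 437) (.lf 433)) (.lf 427)) (.b 1117 (.lf 398) (.lf 376))) (.b 1722 (.b 1448 (.lf 366) (.b 1579 (.lf 315) (.lf 314))) (.b 1878 (.lf 310) (.a 231 (.lf 307) (.lf 304))))) (.b 1218 (.b 1024 (.b 926 (.lf 191) (.lf 178)) (.b 1117 (.a 271 (.lf 141) (.lf 139)) (.lf 138))) (.b 1722 (.b 1448 (.lf 133) (.b 1579 (.lf 135) (.lf 134))) (.b 1878 (.lf 130) (.lf 127))))) (.b 2435 (.a 231 (.b 2332 (.b 2233 (.lf 388) (.lf 379)) (.a 221 (.lf 381) (.lf 380))) (.a 251 (.b 2233 (.lf 385) (.lf 378)) (.b 2233 (.lf 131) (.lf 124)))) (.b 2896 (.a 231 (.b 2656 (.b 2543 (.lf 395) (.lf 390)) (.lf 384)) (.a 251 (.b 2656 (.lf 389) (.lf 377)) (.lf 120))) (.b 3444 (.a 231 (.b 3158 (.lf 331) (.lf 326)) (.a 251 (.b 3158 (.lf 330) (.lf 322)) (.lf 114)))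 (.a 251 (.b 3756 (.lf 311) (.lf 303)) (.lf 112))))))) (.b 686 (.b 562 (.a 366 (.a 340 (.a 315 (.b 508 (.b 460 .out (.lf 262)) (.lf 259)) (.b 483 (.b 460 .out (.lf 264)) (.b 508 (.lf 263) (.lf 254)))) (.b 483 (.b 460 .out (.lf 260)) (.b 508 (.lf 250) (.lf 251)))) (.a 426 (.a 395 (.b 483 (.b 460 .out (.lf 245)) (.b 508 (.lf 243) (.lf 242))) (.b 508 (.b 460 .out (.lf 240)) (.lf 238))) (.a 460 (.b 508 (.b 460 .out (.lf 237)) (.lf 236)) (.a 508 (.b 508 (.b 460 .out (.lf 113)) (.lf 109)) (.a 562 (.b 460 .out (.b 508 .out (.lf 107))) .out))))) (.a 395 (.a 315 (.b 621 (.lf 249) (.b 653 (.lf 247) (.lf 248))) (.a 340 (.b 621 (.lf 246) (.lf 244)) (.b 621 (.lf 235) (.a 366 (.lf 239) (.lf 234))))) (.a 460 (.b 621 (.lf 230) (.lf 197)) (.a 562 (.a 508 (.lf 115) (.lf 104)) (.a 686 (.lf 103) .out))))) (.b 1024 (.a 340 (.b 758 (.a 315 (.b 721 (.lf 186) (.lf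 185)) (.b 721 (.lf 188) (.lf 181))) (.b 838 (.a 315 (.lf 190) (.lf 179)) (.b 926 (.lf 175) (.lf 173)))) (.a 395 (.b 758 (.a 366 (.lf 189) (.lf 177)) (.b 838 (.lf 174) (.lf 167))) (.a 460 (.b 838 (.b 758 (.lf 176) (.lf 171)) (.lf 142)) (.a 686 (.b 838 (.lf 95) (.lf 94)) (.a 838 (.lf 89) (.a 1024 (.lf 87) .out)))))) (.b 2048 (.a 340 (.b 1218 (.b 1117 (.lf 140) (.a 315 (.lf 137) (.lf 136))) (.b 1448 (.lf 132) (.b 1722 (.lf 123) (.lf 122)))) (.a 460 (.b 1448 (.a 395 (.b 1218 (.lf 128) (.lf 129)) (.b 1218 (.lf 126) (.lf 125))) (.b 1722 (.lf 121) (.lf 119))) (.a 686 (.b 1448 (.lf 82) (.lf 79)) (.a 1024 (.lf 76) (.a 2048 (.lf 58) .out))))) (.a 460 (.b 2896 (.a 340 (.b 2435 (.lf 117) (.lf 118)) (.lf 108)) (.a 340 (.b 3444 (.lf 111) (.lf 110)) (.lf 106))) (.a 1024 (.a 686 (.b 2896 (.lf 78) (.lf 77)) (.b 2896 (.lf 84) (.lf 75))) (.a 2048 (.a 1448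 (.lf 60) (.lf 59)) (.a 4096 (.lf 37) .out))))))))) (.b 16384 (.b 8192 (.a 164 (.b 5793 (.a 128 (.a 91 (.a 76 (.lf 563) (.b 4871 (.lf 562) (.lf 561))) (.a 108 (.b 4467 (.lf 551) (.b 4871 (.lf 550) (.lf 549))) (.b 5312 (.b 4871 (.lf 543) (.lf 548)) (.lf 547)))) (.b 4871 (.b 4467 (.a 139 (.lf 408) (.a 151 (.lf 407) (.lf 386))) (.a 139 (.lf 405) (.a 151 (.lf 406) (.lf 387)))) (.b 5312 (.a 139 (.lf 346) (.a 151 (.lf 344) (.lf 343))) (.a 139 (.lf 338) (.a 151 (.lf 340) (.lf 313)))))) (.a 128 (.a 108 (.a 91 (.a 76 (.lf 558) (.b 6889 (.lf 555) (.lf 553))) (.b 6889 (.lf 538) (.lf 541))) (.b 6889 (.b 6317 (.lf 535) (.lf 531)) (.b 7512 (.lf 536) (.lf 530)))) (.b 6889 (.a 151 (.a 139 (.b 6317 (.lf 284) (.lf 280)) (.b 6317 (.lf 285) (.lf 281))) (.b 6049 (.lf 279) (.b 6317 (.lf 278) (.lf 274)))) (.b 7512 (.a 139 (.lf 289) (.a 151 (.lf 288) (.lf 273)))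 (.a 139 (.lf 286) (.a 151 (.lf 287) (.lf 272))))))) (.a 212 (.b 5793 (.b 4871 (.b 4467 (.a 179 (.lf 383) (.a 195 (.lf 423) (.lf 422))) (.a 195 (.a 179 (.lf 382) (.lf 364)) (.lf 302))) (.a 179 (.b 5312 (.a 171 (.lf 341) (.lf 333)) (.lf 305)) (.a 195 (.b 5312 (.lf 283) (.lf 277)) (.b 5312 (.lf 282) (.lf 276))))) (.b 6889 (.b 6317 (.a 179 (.lf 275) (.a 195 (.lf 300) (.lf 299))) (.a 179 (.lf 268) (.a 195 (.lf 301) (.lf 296)))) (.b 7512 (.a 179 (.lf 270) (.a 195 (.lf 297) (.lf 291))) (.a 179 (.lf 267) (.a 195 (.lf 298) (.lf 290)))))) (.a 460 (.a 251 (.b 5312 (.b 4467 (.lf 295) (.b 4871 (.lf 292) (.lf 271))) (.b 6317 (.b 5793 (.lf 269) (.lf 294)) (.b 6889 (.lf 293) (.lf 266)))) (.b 5793 (.a 340 (.b 4871 (.lf 116) (.lf 105)) (.lf 100)) (.a 340 (.b 6889 (.lf 102) (.lf 101)) (.lf 98)))) (.a 1448 (.b 5793 (.a 1024 (.a 686 (.lf 83) (.lf 85)) (.lf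 55)) (.a 1024 (.a 686 (.lf 81) (.lf 80)) (.lf 54))) (.a 2896 (.a 2048 (.b 5793 (.lf 53) (.lf 52)) (.lf 39)) (.a 4096 (.lf 38) (.a 8192 (.lf 21) .out))))))) (.a 151 (.a 128 (.a 108 (.a 91 (.a 76 (.b 11585 (.lf 568) (.lf 573)) (.b 11585 (.lf 567) (.lf 566))) (.b 11585 (.b 9742 (.lf 560) (.lf 546)) (.b 13777 (.lf 539) (.lf 540)))) (.b 10624 (.b 9742 (.b 8933 (.lf 559) (.a 118 (.lf 565) (.lf 564))) (.a 118 (.lf 556) (.lf 552))) (.b 12634 (.b 11585 (.a 118 (.lf 557) (.lf 554)) (.lf 537)) (.b 15024 (.b 13777 (.lf 534) (.lf 533)) (.lf 532))))) (.b 10624 (.a 139 (.b 8933 (.lf 229) (.b 9742 (.lf 232) (.lf 212))) (.b 8933 (.lf 231) (.b 9742 (.lf 228) (.lf 207)))) (.b 12634 (.b 11585 (.a 139 (.lf 211) (.lf 206)) (.lf 222)) (.b 15024 (.b 13777 (.lf 215) (.lf 209)) (.lf 208))))) (.a 251 (.a 179 (.b 10624 (.a 164 (.b 8933 (.lf 217) (.b 9742 (.lf 219)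 (.lf 210))) (.b 8933 (.lf 218) (.b 9742 (.lf 216) (.lf 205)))) (.b 12634 (.b 11585 (.lf 203) (.lf 220)) (.b 15024 (.b 13777 (.lf 214) (.lf 204)) (.lf 202)))) (.a 212 (.b 10624 (.b 8933 (.lf 227) (.b 9742 (.lf 224) (.lf 221))) (.b 11585 (.lf 213) (.b 13777 (.lf 226) (.lf 201)))) (.b 11585 (.b 9742 (.lf 223) (.lf 199)) (.b 13777 (.lf 225) (.lf 200))))) (.a 1448 (.a 686 (.a 460 (.b 11585 (.a 340 (.lf 99) (.lf 96)) (.lf 97)) (.b 11585 (.lf 72) (.lf 71))) (.a 1024 (.b 11585 (.lf 68) (.lf 66)) (.b 11585 (.lf 57) (.lf 50)))) (.a 2896 (.a 2048 (.b 11585 (.lf 44) (.lf 43)) (.b 11585 (.lf 35) (.lf 30))) (.a 4096 (.b 11585 (.lf 27) (.lf 28)) (.a 8192 (.a 5793 (.lf 17) (.lf 14)) (.a 16384 (.lf 10) .out)))))))) (.a 179 (.a 108 (.b 65536 (.a 91 (.b 32768 (.b 23170 (.a 76 (.lf 569) (.lf 570)) (.lf 528)) (.b 46341 (.lf 513) (.a 76 (.lf 523) (.b 55109 (.lf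 518) (.lf 516))))) (.b 32768 (.b 23170 (.b 19484 (.lf 575) (.lf 571)) (.b 27554 (.lf 545) (.lf 542))) (.b 46341 (.b 38968 (.lf 506) (.lf 508)) (.b 55109 (.lf 497) (.lf 500))))) (.a 91 (.a 76 (.b 82752 (.lf 527) (.lf 509)) (.b 92988 (.b 82752 (.lf 526) (.lf 501)) (.a 83 (.lf 494) (.lf 495)))) (.b 92988 (.b 82752 (.b 73643 (.lf 514) (.a 99 (.lf 517) (.lf 515))) (.a 99 (.lf 524) (.lf 525))) (.a 99 (.b 98571 (.lf 521) (.lf 519)) (.b 98571 (.lf 522) (.lf 520)))))) (.b 55109 (.b 32768 (.b 23170 (.b 19484 (.a 128 (.lf 576) (.a 151 (.lf 241) (.lf 198))) (.a 128 (.lf 572) (.a 151 (.lf 233) (.lf 196)))) (.b 27554 (.a 128 (.lf 544) (.a 151 (.lf 152) (.lf 151))) (.a 128 (.lf 529) (.a 151 (.lf 149) (.lf 143))))) (.a 128 (.b 38968 (.lf 507) (.b 46341 (.lf 505) (.lf 496))) (.a 151 (.b 38968 (.lf 168) (.b 46341 (.lf 163) (.lf 157))) (.b 38968 (.lf 166)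 (.b 46341 (.lf 162) (.lf 155)))))) (.a 128 (.b 82752 (.b 65536 (.b 60097 (.lf 499) (.lf 498)) (.b 73643 (.lf 510) (.a 118 (.lf 502) (.lf 492)))) (.a 118 (.b 98571 (.b 92988 (.lf 512) (.lf 504)) (.lf 503)) (.b 92988 (.lf 511) (.lf 493)))) (.b 82752 (.a 151 (.b 65536 (.lf 156) (.b 73643 (.lf 169) (.lf 170))) (.b 65536 (.lf 153) (.lf 158))) (.a 151 (.b 92988 (.lf 165) (.a 139 (.lf 160) (.lf 159))) (.lf 154)))))) (.a 1448 (.a 460 (.b 46341 (.a 251 (.b 27554 (.b 23170 (.b 19484 (.lf 180) (.lf 172)) (.lf 148)) (.b 32768 (.lf 146) (.b 38968 (.lf 164) (.lf 161)))) (.b 32768 (.b 23170 (.lf 93) (.lf 86)) (.lf 91))) (.a 251 (.b 65536 (.b 55109 (.lf 147) (.lf 145)) (.b 82752 (.lf 150) (.lf 144))) (.b 65536 (.a 340 (.lf 92) (.lf 90)) (.lf 88)))) (.b 32768 (.b 23170 (.a 1024 (.a 686 (.lf 67) (.lf 64)) (.lf 47)) (.a 1024 (.a 686 (.lf 65) (.lf 63)) (.lf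 48))) (.a 1024 (.a 686 (.b 65536 (.b 46341 (.lf 73) (.lf 74)) (.lf 70)) (.b 65536 (.b 46341 (.lf 69) (.lf 62)) (.lf 61))) (.b 65536 (.b 46341 (.lf 56) (.lf 51)) (.lf 49))))) (.a 4096 (.b 32768 (.b 23170 (.a 2896 (.a 2048 (.lf 45) (.lf 33)) (.lf 25)) (.a 2896 (.a 2048 (.lf 46) (.lf 34)) (.lf 24))) (.a 2896 (.a 2048 (.b 65536 (.b 46341 (.lf 42) (.lf 41)) (.lf 40)) (.b 65536 (.b 46341 (.lf 36) (.lf 32)) (.lf 31))) (.b 65536 (.b 46341 (.lf 29) (.lf 26)) (.lf 23)))) (.a 8192 (.a 5793 (.b 32768 (.b 23170 (.lf 22) (.lf 20)) (.b 65536 (.b 46341 (.lf 19) (.lf 13)) (.lf 18))) (.b 32768 (.lf 15) (.b 65536 (.lf 12) (.lf 16)))) (.a 16384 (.b 65536 (.b 32768 (.lf 7) (.a 11585 (.lf 11) (.lf 6))) (.a 11585 (.lf 9) (.lf 8))) (.a 32768 (.b 65536 (.b 32768 (.lf 5) (.lf 4)) (.lf 3)) (.a 65536 (.b 65536 (.b 32768 .out (.lf 1)) (.lf 2)) (.b 65536 .out (.lf 0)))))))))))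

theorem tree_ok : trk 251 460 rects tree false 64 104490 64 104490 = true := by decide +kernel

theorem pcs_ch : ChP pcs 192 := by
  simp [ChP, pcs, pc0, pc1, pc2, pc3, pc4, pc5, pc6, pc7, pc8, pc9, pc10, pc11, pc12]

theorem rows_hd : ∀ r ∈ rows.head?, r.z ≤ 256 := by
  intro r hr
  simp [rows] at hr
  subst hr
  norm_num

theorem wtF : wts = wtOf gsF := rfl

/-- Q1 for all convex bodies from the certificates of the generators. -/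
theorem mainF (hct : Cts) :
    ∀ (K : Set (EuclideanSpace ℝ (Fin 3))), Convex ℝ K → IsCompact K → (interior K).Nonempty →
    ∀ c : ℝ,
    (∀ H : AffineSubspace ℝ (EuclideanSpace ℝ (Fin 3)),
        Module.finrank ℝ H.direction = 2 → (∃ x ∈ interior K, x ∈ H) →
        ∀ a1 a2 : ℝ,
          (∀ t : ℝ, 0 ≤ t →
            (volume ((K ∩ (H : Set (EuclideanSpace ℝ (Fin 3)))) +
              Metric.closedBall (0 : EuclideanSpace ℝ (Fin 3)) t)).toReal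
              = 2 * a2 * t + Real.pi * a1 * t ^ 2 + 4 / 3 * Real.pi * t ^ 3) →
          c * a1 ^ 2 ≤ Real.pi * a2) →
    ∀ V1 V2 : ℝ,
      (∀ t : ℝ, 0 ≤ t →
        (volume (K + Metric.closedBall (0 : EuclideanSpace ℝ (Fin 3)) t)).toReal
          = (volume K).toReal + 2 * V2 * t + Real.pi * V1 * t ^ 2 + 4 / 3 * Real.pi * t ^ 3) →
      4 * c * V2 ^ 2 ≤ 3 * Real.pi * V1 * (volume K).toReal := by
  refine fromData (OM := RGQ.OM) (LA := RGQ.LA) (p := RGQ.rp) (mu := 398) (a0 := 251) (b0 := 460) hct RGQ.rg_ok RGQ.rt_ok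
    ?_ ?_ ?_ ?_ ?_ ?_ sg_ok kn_ok tb_ok rows_hd pcs_ch ?_ (wtF ▸ rects_ok) tree tree_ok ?_ ?_
  · norm_num [RGQ.rp]
  · norm_num [RGQ.rp]
  · norm_num [RGQ.rp]
  · norm_num [RGQ.rp]
  · norm_num [RGQ.rp]
  · norm_num [RGQ.rp]
  · norm_num [RGQ.rp]
  · norm_num [RGQ.rp]
  · norm_num [RGQ.rp]

end Pool.Agent.Lib.MP_084b88_gt.QV
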